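import Pool.Agent.V11124.PW.Main

set_option autoImplicit false

namespace Pool.Agent.Results.MP_def192_nt.PowerWeightings

/-- A set of natural numbers is primitive if no element divides a different element. -/
def IsPrimitive (A : Set ℕ) : Prop := ∀ a ∈ A, ∀ b ∈ A, a ∣ b → a = b

/-- The weighted size `S(f, A) = ∑_{a ∈ A} f a`. -/
noncomputable def S (f : ℕ → ℝ) (A : Finset ℕ) : ℝ := ∑ a ∈ A, f a

/-- The weighted density `S(f, A) / S(f, [n])`. -/
noncomputable def density (f : ℕ → ℝ) (A : Finset ℕ) (n : ℕ) : ℝ :=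
  S f A / S f (Finset.Icc 1 n)

/-- The finite set of all densities of primitive subsets of `[n]`. -/
def densities (f : ℕ → ℝ) (n : ℕ) : Set ℝ :=
  {x | ∃ A : Finset ℕ, A ⊆ Finset.Icc 1 n ∧ IsPrimitive (A : Set ℕ) ∧ x = density f A n}

/-- `F(f, n)`, the maximal density of a primitive subset of `[n]` (the set is finite and
nonempty, so its supremum is its maximum; this is also part of the result below). -/
noncomputable def F (f : ℕ → ℝ) (n : ℕ) : ℝ := sSup (densities f n)

/-- The power weighting `f_σ(m) = m^(-σ)`. -/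
noncomputable def pw (σ : ℝ) : ℕ → ℝ := fun m => (m : ℝ) ^ (-σ)

theorem result :
    (∀ (f : ℕ → ℝ) (n : ℕ), IsGreatest (densities f n) (F f n)) ∧
    ∀ σ₁ σ₂ : ℝ, 0 ≤ σ₁ → σ₁ < σ₂ → σ₂ ≤ 1 →
      ∃ n₀ : ℕ, ∀ n : ℕ, n₀ < n → F (pw σ₁) n > F (pw σ₂) n := by
  refine ⟨fun f n => ?_, fun σ₁ σ₂ h0 h1 h2 => ?_⟩
  · have hfin : (densities f n).Finite := by
      classical
      refine ((Finset.Icc 1 n).powerset.image (fun A => density f A n)).finite_toSet.subset ?_
      rintro x ⟨A, hA, _, rfl⟩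
      simp only [Finset.coe_image, Set.mem_image, SetLike.mem_coe, Finset.mem_powerset]
      exact ⟨A, hA, rfl⟩
    have hne : (densities f n).Nonempty :=
      ⟨_, ∅, Finset.empty_subset _, by intro a ha; simp at ha, rfl⟩
    exact ⟨hne.csSup_mem hfin, fun x hx => le_csSup hfin.bddAbove hx⟩
  · exact Pool.Agent.V11124.PW.main σ₁ σ₂ h0 h1 h2

end Pool.Agent.Results.MP_def192_nt.PowerWeightings
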